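import Mathlib.LinearAlgebra.ExteriorPower.Basis
import Mathlib.LinearAlgebra.ExteriorAlgebra.Grading
import Mathlib.LinearAlgebra.Projectivization.Subspace
import Mathlib.LinearAlgebra.FiniteDimensional.Lemmas
import Mathlib.Data.Nat.Choose.Sum
import Mathlib.Tactic

/-!
# Cross-intersecting pairs of projective subspaces

For every field `F` and every `n ≥ 0`, a cross-intersecting sequence of `m` pairs of nonempty
projective subspaces of the `n`-dimensional projective space over `F` has `m ≤ 2 ^ (n + 1) - 2`.

Idea: the wedge products `u i` of bases of the subspaces `U i` lie in the sum of the exterior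
powers of degrees `1, ..., n`, whose dimension is `2 ^ (n + 1) - 2`, and they are linearly
independent since `u i * v i ≠ 0` and `u i * v j = 0` for `i < j`.
-/

open Module

namespace Pool.Agent.L0h64.Known.SkewBound

section Lin

variable {F : Type*} [Field F] {E : Type*} [AddCommGroup E] [Module F E]

/-- The exterior product of linearly independent vectors is not zero. -/
lemma iMulti_ne_zero {k : ℕ} (v : Fin k → E) (hv : LinearIndependent F v) :
    ExteriorAlgebra.ιMulti F k v ≠ 0 := by
  have h := (exteriorPower.ιMulti_family_linearIndependent_field (n := k) hv).ne_zero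
    (Set.powersetCard.ofFinEmbEquiv (OrderIso.refl (Fin k)).toOrderEmbedding)
  intro h0
  apply h
  apply Subtype.ext
  rw [exteriorPower.ιMulti_family, Equiv.symm_apply_apply]
  simpa using h0

/-- The product of two exterior products is the exterior product of the joined families. -/
lemma iMulti_mul {a b : ℕ} (x : Fin a → E) (y : Fin b → E) :
    ExteriorAlgebra.ιMulti F a x * ExteriorAlgebra.ιMulti F b y =
      ExteriorAlgebra.ιMulti F (a + b) (Fin.append x y) := by
  rw [ExteriorAlgebra.ιMulti_apply, ExteriorAlgebra.ιMulti_apply, ExteriorAlgebra.ιMulti_apply,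
    ← List.prod_append]
  congr 1
  rw [← List.ofFn_fin_append]
  congr 1
  ext i
  refine Fin.addCases (fun i => ?_) (fun i => ?_) i <;> simp

/-- The joined family of bases of two subspaces with trivial intersection is independent. -/
lemma append_indep {a b : ℕ} {U V : Submodule F E} (bU : Basis (Fin a) F U) (bV : Basis (Fin b) F V)
    (h : U ⊓ V = ⊥) :
    LinearIndependent F (Fin.append (fun k => (bU k : E)) (fun k => (bV k : E))) := by
  have h1 : LinearIndependent F (fun k => (bU k : E)) :=
    bU.linearIndependent.map' U.subtype (Submodule.ker_subtype U)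
  have h2 : LinearIndependent F (fun k => (bV k : E)) :=
    bV.linearIndependent.map' V.subtype (Submodule.ker_subtype V)
  have hd : Disjoint (Submodule.span F (Set.range fun k => (bU k : E)))
      (Submodule.span F (Set.range fun k => (bV k : E))) := by
    have e1 : Submodule.span F (Set.range fun k => (bU k : E)) ≤ U :=
      Submodule.span_le.2 (by rintro _ ⟨k, rfl⟩; exact (bU k).2)
    have e2 : Submodule.span F (Set.range fun k => (bV k : E)) ≤ V :=
      Submodule.span_le.2 (by rintro _ ⟨k, rfl⟩; exact (bV k).2)
    exact (disjoint_iff.2 h).mono e1 e2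
  have h3 := LinearIndependent.sum_type h1 h2 hd
  have h4 := h3.comp (finSumFinEquiv.symm) finSumFinEquiv.symm.injective
  have h5 : Fin.append (fun k => (bU k : E)) (fun k => (bV k : E)) =
      (Sum.elim (fun k => (bU k : E)) (fun k => (bV k : E))) ∘ finSumFinEquiv.symm := by
    ext i
    refine Fin.addCases (fun i => ?_) (fun i => ?_) i <;> simp
  rw [h5]
  exact h4

/-- The joined family of bases of two subspaces which meet in a nonzero vector is dependent. -/
lemma append_dep {a b : ℕ} {U V : Submodule F E} (bU : Basis (Fin a) F U) (bV : Basis (Fin b) F V)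
    (h : U ⊓ V ≠ ⊥) :
    ¬ LinearIndependent F (Fin.append (fun k => (bU k : E)) (fun k => (bV k : E))) := by
  intro hl
  apply h
  have h4 := hl.comp finSumFinEquiv finSumFinEquiv.injective
  have h5 : (Fin.append (fun k => (bU k : E)) (fun k => (bV k : E))) ∘ finSumFinEquiv =
      Sum.elim (fun k => (bU k : E)) (fun k => (bV k : E)) := by
    ext i
    rcases i with i | i <;> simp
  rw [h5] at h4
  have hd := (linearIndependent_sum.1 h4).2.2
  have e1 : Submodule.span F (Set.range fun k => (bU k : E)) = U := by
    have := congrArg (Submodule.map U.subtype) bU.span_eq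
    rw [Submodule.map_span, Submodule.map_top, Submodule.range_subtype, ← Set.range_comp] at this
    exact this
  have e2 : Submodule.span F (Set.range fun k => (bV k : E)) = V := by
    have := congrArg (Submodule.map V.subtype) bV.span_eq
    rw [Submodule.map_span, Submodule.map_top, Submodule.range_subtype, ← Set.range_comp] at this
    exact this
  simp only [Sum.elim_comp_inl, Sum.elim_comp_inr, e1, e2] at hd
  exact disjoint_iff.1 hd

end Lin

lemma finrank_biSup_le {F : Type*} [Field F] {M : Type*} [AddCommGroup M] [Module F M]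
    (W : ℕ → Submodule F M) (hW : ∀ k, Module.Finite F (W k)) (s : Finset ℕ) :
    Module.Finite F (⨆ k ∈ s, W k : Submodule F M) ∧
      finrank F (⨆ k ∈ s, W k : Submodule F M) ≤ ∑ k ∈ s, finrank F (W k) := by
  classical
  induction s using Finset.induction_on with
  | empty =>
    have h0 : (⨆ k ∈ (∅ : Finset ℕ), W k : Submodule F M) = ⊥ := by simp
    rw [h0]
    exact ⟨inferInstance, by simp⟩
  | insert a s ha ih =>
    obtain ⟨ih1, ih2⟩ := ih
    have := hW a
    rw [Finset.iSup_insert, Finset.sum_insert ha]
    refine ⟨inferInstance, ?_⟩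
    exact (Submodule.finrank_add_le_finrank_add_finrank _ _).trans (by omega)

lemma sum_choose_Ico (N : ℕ) : ∑ k ∈ Finset.Ico 1 N, N.choose k ≤ 2 ^ N - 2 := by
  rcases Nat.eq_zero_or_pos N with rfl | hN
  · simp
  · have h := Nat.sum_range_choose N
    rw [Finset.sum_range_succ, Finset.range_eq_Ico, Finset.sum_eq_sum_Ico_succ_bot hN] at h
    simp only [Nat.choose_zero_right, Nat.choose_self, zero_add] at h
    omega

/-- The linear version: subspaces of `F ^ N`. -/
theorem linear_bound {F : Type*} [Field F] (N m : ℕ) (U V : Fin m → Submodule F (Fin N → F))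
    (hU : ∀ i, U i ≠ ⊥) (hV : ∀ i, V i ≠ ⊥) (h1 : ∀ i, U i ⊓ V i = ⊥)
    (h2 : ∀ i j, i < j → U i ⊓ V j ≠ ⊥) : m ≤ 2 ^ N - 2 := by
  classical
  let u : Fin m → ExteriorAlgebra F (Fin N → F) := fun i =>
    ExteriorAlgebra.ιMulti F (finrank F (U i)) (fun k => (finBasis F (U i) k : Fin N → F))
  let v : Fin m → ExteriorAlgebra F (Fin N → F) := fun i =>
    ExteriorAlgebra.ιMulti F (finrank F (V i)) (fun k => (finBasis F (V i) k : Fin N → F))
  have hne : ∀ i, u i * v i ≠ 0 := by
    intro i
    simp only [u, v, iMulti_mul]
    exact iMulti_ne_zero _ (append_indep _ _ (h1 i))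
  have hz : ∀ i j, i < j → u i * v j = 0 := by
    intro i j hij
    simp only [u, v, iMulti_mul]
    exact AlternatingMap.map_linearDependent _ _ (append_dep _ _ (h2 i j hij))
  have hli : LinearIndependent F u := by
    rw [Fintype.linearIndependent_iff]
    intro g hg
    by_contra hcon
    push Not at hcon
    have hne' : (Finset.univ.filter fun i => g i ≠ 0).Nonempty := by
      obtain ⟨i, hi⟩ := hcon
      exact ⟨i, by simpa using hi⟩
    set j := (Finset.univ.filter fun i => g i ≠ 0).max' hne' with hj
    have hjm : g j ≠ 0 := by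
      have := Finset.max'_mem _ hne'
      simpa using this
    have hmax : ∀ i, g i ≠ 0 → i ≤ j := fun i hi => Finset.le_max' _ i (by simpa using hi)
    have h0 : (∑ i, g i • u i) * v j = 0 := by rw [hg, zero_mul]
    rw [Finset.sum_mul, Finset.sum_eq_single j] at h0
    · rw [smul_mul_assoc] at h0
      exact (smul_ne_zero hjm (hne j)) h0
    · intro i _ hij
      rw [smul_mul_assoc]
      by_cases hgi : g i = 0
      · rw [hgi, zero_smul]
      · rw [hz i j (lt_of_le_of_ne (hmax i hgi) hij), smul_zero]
    · intro h
      exact absurd (Finset.mem_univ j) h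
  let S : Submodule F (ExteriorAlgebra F (Fin N → F)) :=
    ⨆ k ∈ Finset.Ico 1 N, ⋀[F]^k (Fin N → F)
  have hfr := finrank_biSup_le (F := F) (fun k => ⋀[F]^k (Fin N → F))
    (fun k => inferInstance) (Finset.Ico 1 N)
  have hmem : ∀ i, u i ∈ S := by
    intro i
    have ha : 1 ≤ finrank F (U i) := by
      rw [Nat.one_le_iff_ne_zero]
      intro h
      exact hU i (Submodule.finrank_eq_zero.1 h)
    have hb : 1 ≤ finrank F (V i) := by
      rw [Nat.one_le_iff_ne_zero]
      intro h
      exact hV i (Submodule.finrank_eq_zero.1 h)
    have hab : finrank F (U i) + finrank F (V i) ≤ N := by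
      have h3 := Submodule.finrank_sup_add_finrank_inf_eq (U i) (V i)
      rw [h1 i, finrank_bot, add_zero] at h3
      rw [← h3]
      exact (Submodule.finrank_le _).trans (by simp)
    have hk : finrank F (U i) ∈ Finset.Ico 1 N := Finset.mem_Ico.2 ⟨ha, by omega⟩
    have : u i ∈ ⋀[F]^(finrank F (U i)) (Fin N → F) :=
      ExteriorAlgebra.ιMulti_range F _ ⟨_, rfl⟩
    exact (le_iSup₂_of_le (f := fun k (_ : k ∈ Finset.Ico 1 N) => ⋀[F]^k (Fin N → F))
      (finrank F (U i)) hk le_rfl) this
  have : Module.Finite F S := hfr.1
  have hli' : LinearIndependent F (fun i => (⟨u i, hmem i⟩ : S)) := by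
    apply LinearIndependent.of_comp S.subtype
    exact hli
  have hcard := hli'.fintype_card_le_finrank
  rw [Fintype.card_fin] at hcard
  refine hcard.trans (hfr.2.trans ?_)
  have : ∀ k, finrank F (⋀[F]^k (Fin N → F)) = N.choose k := by
    intro k
    rw [exteriorPower.finrank_eq, finrank_fin_fun]
  simp only [this]
  exact sum_choose_Ico N

/-- For every field `F`, every `n ≥ 0` and every cross-intersecting sequence `(A i, B i)`, `i < m`,
of nonempty projective subspaces of the `n`-dimensional projective space over `F`
(`A i ∩ B i = ∅` for all `i`, and `A i ∩ B j ≠ ∅` for all `i < j`): `m ≤ 2 ^ (n + 1) - 2`. -/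
theorem result (F : Type*) [Field F] (n m : ℕ)
    (A B : Fin m → Projectivization.Subspace F (Fin (n + 1) → F))
    (hA : ∀ i, (A i : Set (Projectivization F (Fin (n + 1) → F))).Nonempty)
    (hB : ∀ i, (B i : Set (Projectivization F (Fin (n + 1) → F))).Nonempty)
    (hdisj : ∀ i, (A i : Set (Projectivization F (Fin (n + 1) → F))) ∩ B i = ∅)
    (hcross : ∀ i j, i < j →
      ((A i : Set (Projectivization F (Fin (n + 1) → F))) ∩ B j).Nonempty) :
    m ≤ 2 ^ (n + 1) - 2 := by
  have key : ∀ S T : Projectivization.Subspace F (Fin (n + 1) → F),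
      ((S : Set (Projectivization F (Fin (n + 1) → F))) ∩ T).Nonempty ↔
        Projectivization.Subspace.submodule S ⊓ Projectivization.Subspace.submodule T ≠ ⊥ := by
    intro S T
    constructor
    · rintro ⟨x, hxS, hxT⟩ h
      have hx : x.rep ∈ Projectivization.Subspace.submodule S ⊓
          Projectivization.Subspace.submodule T := by
        refine ⟨?_, ?_⟩
        · refine (Projectivization.Subspace.mem_submodule_iff S x.rep_nonzero).2 ?_
          rw [x.mk_rep]
          exact hxS
        · refine (Projectivization.Subspace.mem_submodule_iff T x.rep_nonzero).2 ?_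
          rw [x.mk_rep]
          exact hxT
      rw [h] at hx
      exact x.rep_nonzero ((Submodule.mem_bot F).1 hx)
    · intro h
      obtain ⟨y, hy, hy0⟩ := Submodule.exists_mem_ne_zero_of_ne_bot h
      exact ⟨Projectivization.mk F y hy0,
        (Projectivization.Subspace.mem_submodule_iff S hy0).1 hy.1,
        (Projectivization.Subspace.mem_submodule_iff T hy0).1 hy.2⟩
  refine linear_bound (n + 1) m (fun i => Projectivization.Subspace.submodule (A i))
    (fun i => Projectivization.Subspace.submodule (B i)) ?_ ?_ ?_ ?_
  · intro i h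
    have := (key (A i) (A i)).1 (by rw [Set.inter_self]; exact hA i)
    exact this (by rw [inf_idem]; exact h)
  · intro i h
    have := (key (B i) (B i)).1 (by rw [Set.inter_self]; exact hB i)
    exact this (by rw [inf_idem]; exact h)
  · intro i
    by_contra h
    have := (key (A i) (B i)).2 h
    rw [hdisj i] at this
    exact Set.not_nonempty_empty this
  · intro i j hij
    exact (key (A i) (B j)).1 (hcross i j hij)

end Pool.Agent.L0h64.Known.SkewBound
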